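import Pool.Agent.SQD.Asm

/-!
# MP_104382_al: the open unit square is `G`-paradoxical exactly for the dense subgroups `G` of `SL₂(ℝ)`

The definitions are in `Pool/Agent/SQD/Defs.lean`.
-/

set_option autoImplicit false

namespace Pool.Agent.Results.MP_104382_al.ParadoxicalIffDense

open MeasureTheory SQD

/-- For every subgroup `G` of `SL₂(ℝ)` the following are equivalent: `G` is dense; the open unit
square is `G`-paradoxical; some measurable set of positive finite measure is `G`-paradoxical; the
sets with `Fat1` are `G`-paradoxical and `G`-equidecomposable to each other; the same for `Fat2`.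
The group `F` is not dense and the square is not `F`-paradoxical. -/
theorem result :
    (∀ G : Subgroup SL, List.TFAE [
      Dense (G : Set SL),
      IsParadoxical G Q,
      ∃ E : Set V, NullMeasurableSet E volume ∧ volume E ≠ 0 ∧ volume E ≠ ⊤ ∧ IsParadoxical G E,
      ∀ E E' : Set V, Fat1 E → Fat1 E' → IsParadoxical G E ∧ Equidec G E E',
      ∀ E E' : Set V, Fat2 E → Fat2 E' → IsParadoxical G E ∧ Equidec G E E']) ∧
    ¬ Dense (F : Set SL) ∧ ¬ IsParadoxical F Q :=
  final a_Thm a_ThmF t_QFT.1 t_QFT.2.1 t_QFT.2.2.1 t_QFT.2.2.2

end Pool.Agent.Results.MP_104382_al.ParadoxicalIffDense
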